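import Pool.Agent.H58.HN.DefsT

/-!
# Statements of the modules: topology
-/

set_option autoImplicit false

noncomputable section

namespace Pool.Agent.H58.HN

open Classical
open scoped TensorProduct

/-- TA: the boundary of the boundary -/
def T_TA : Prop :=
  ∀ (P : Type) [PartialOrder P] (c : CG P), bd (bd c) = 0

/-- TB: cones are acyclic -/
def T_TB : Prop :=
  ∀ (P : Type) [PartialOrder P] (r : P) (m : ℕ), ∀ c ∈ Sp (fun t : Ch P => t.1.card = m ∧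
    ∀ y ∈ t.1, y ≤ r), bd c = 0 →
    ∃ y ∈ Sp (fun t : Ch P => t.1.card = m + 1 ∧ ∀ y ∈ t.1, y ≤ r), bd y = c

/-- TC: acyclic carriers -/
def T_TC : Prop :=
  ∀ (I X Y : Type) [AddCommGroup X] [Module ℚ X] [AddCommGroup Y] [Module ℚ Y]
    (b : Module.Basis I ℚ X) (d : I → ℕ) (N : ℕ) (D : X →ₗ[ℚ] X) (δ : Y →ₗ[ℚ] Y)
    (φ : X →ₗ[ℚ] Y) (ε : ℚ) (f₀ : X →ₗ[ℚ] Y) (K L : I → Submodule ℚ Y),
    (∀ i, N < d i → D (b i) ∈ Submodule.span ℚ {x | ∃ j, x = b j ∧ d j + 1 = d i ∧ K j ≤ L i}) →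
    (∀ i, N < d i → φ (b i) ∈ L i) →
    (∀ i, N + 1 < d i → D (D (b i)) = 0 ∧ δ (φ (b i)) + ε • φ (D (b i)) = 0) →
    (∀ i, d i = N + 1 → δ (φ (b i) + ε • f₀ (D (b i))) = 0) →
    (∀ i, N < d i → ∀ c ∈ L i, δ c = 0 → ∃ y ∈ K i, δ y = c) →
    (∀ i, d i ≤ N → f₀ (b i) ∈ K i) →
    ∃ f : X →ₗ[ℚ] Y, (∀ i, d i ≤ N → f (b i) = f₀ (b i)) ∧ (∀ i, f (b i) ∈ K i) ∧
      ∀ i, N < d i → δ (f (b i)) = φ (b i) + ε • f (D (b i))

/-- TD: monotone maps carry chain maps -/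
def T_TD : Prop :=
  ∀ (P Q : Type) [PartialOrder P] [PartialOrder Q] (f : P →o Q), ∃ Φ, Carries f Φ

/-- TE: uniqueness up to boundaries -/
def T_TE : Prop :=
  ∀ (P Q : Type) [PartialOrder P] [PartialOrder Q] (f : P →o Q) (Φ Φ' : CG P →ₗ[ℚ] CG Q),
    Carries f Φ → Carries f Φ' → ∀ n, 1 ≤ n → ∀ z ∈ G P n, bd z = 0 →
      ∃ y ∈ G Q (n + 1), bd y = Φ z - Φ' z

/-- TF: identity, composition, comparison, cycles -/
def T_TF : Prop :=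
  (∀ (P : Type) [PartialOrder P], Carries (OrderHom.id : P →o P) LinearMap.id) ∧
  (∀ (P Q R : Type) [PartialOrder P] [PartialOrder Q] [PartialOrder R] (f : P →o Q) (g : Q →o R)
    (Φ : CG P →ₗ[ℚ] CG Q) (Ψ : CG Q →ₗ[ℚ] CG R), Carries f Φ → Carries g Ψ →
      Carries (g.comp f) (Ψ ∘ₗ Φ)) ∧
  (∀ (P Q : Type) [PartialOrder P] [PartialOrder Q] (f g : P →o Q) (Φ : CG P →ₗ[ℚ] CG Q), f ≤ g →
    Carries f Φ → Carries g Φ) ∧
  (∀ (P Q : Type) [PartialOrder P] [PartialOrder Q] (f : P →o Q) (Φ : CG P →ₗ[ℚ] CG Q),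
    Carries f Φ → ∀ n, 2 ≤ n → (∀ z ∈ G P n, Φ z ∈ G Q n ∧ bd (Φ z) = Φ (bd z)) ∧
      ∀ z ∈ G P (n + 1), Φ z ∈ G Q (n + 1))

/-- TG: the homology does not vanish -/
def T_TG : Prop :=
  ∀ (P : Type) [PartialOrder P] [Finite P] (τ : P ≃o P), (∀ x, τ (τ x) = x) → (∀ x, τ x ≠ x) →
    ∃ (n : ℕ) (z : CG P), z ∈ G P n ∧ bd z = 0 ∧ ¬ ∃ y ∈ G P (n + 1), bd y = z

/-- TH: the homology of a connected poset vanishes in the degrees `0` and `1` -/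
def T_TH : Prop :=
  ∀ (P : Type) [PartialOrder P] [Nonempty P],
    (∀ x y : P, Relation.ReflTransGen (fun a b => a ≤ b ∨ b ≤ a) x y) → Van P 2

/-- TI: the boundary of the tensor product -/
def T_TI : Prop :=
  ∀ (P : Type) [PartialOrder P], (∀ w : CC P, D2 (D2 w) = 0) ∧ ∀ s t : Ch P,
    s.1.Nonempty → t.1.Nonempty → D2 (e s ⊗ₜ[ℚ] e t) ∈ Submodule.span ℚ
      {x | ∃ s' t' : Ch P, x = e s' ⊗ₜ[ℚ] e t' ∧ s'.1.Nonempty ∧ t'.1.Nonempty ∧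
        s'.1 ⊆ s.1 ∧ t'.1 ⊆ t.1 ∧ s'.1.card + t'.1.card + 1 = s.1.card + t.1.card}

/-- TJ: the diagonal is a chain map -/
def T_TJ : Prop :=
  ∀ (P : Type) [PartialOrder P] (c : CG P), D2 (AW c) = AW (bd c)

/-- TK: monotone maps of two variables carry chain maps -/
def T_TK2 : Prop :=
  ∀ (P Q : Type) [PartialOrder P] [PartialOrder Q] (F : P × P →o Q), ∃ μ, Mu F μ

/-- TL: the chain maps of the diagonal and of the sections -/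
def T_TL : Prop :=
  ∀ (P Q : Type) [PartialOrder P] [PartialOrder Q] (F : P × P →o Q) (μ : CC P →ₗ[ℚ] CG Q),
    Mu F μ → Carries (F.comp OrderHom.diag) (μ ∘ₗ AW) ∧
      (∀ v, Carries (F.comp (OrderHom.id.prod (OrderHom.const P v)))
        (μ ∘ₗ (TensorProduct.mk ℚ (CG P) (CG P)).flip (e (pt v)))) ∧
      ∀ u, Carries (F.comp ((OrderHom.const P u).prod OrderHom.id))
        (μ ∘ₗ TensorProduct.mk ℚ (CG P) (CG P) (e (pt u)))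

/-- TM: contractions -/
def T_TM : Prop :=
  ∀ (P : Type) [PartialOrder P] (n : ℕ), Van P n → ∃ σ, Con P n σ

/-- TN: the homotopy for the diagonal -/
def T_TN : Prop :=
  ∀ (P : Type) [PartialOrder P] (n : ℕ) (σ : CG P →ₗ[ℚ] CG P), 2 ≤ n → Con P n σ →
    ∀ (s : Ch P) (m : P), s.1.card = n → m ∈ s.1 → (∀ y ∈ s.1, y ≤ m) →
      D2 (TensorProduct.map σ LinearMap.id (AW (e s))) +
        TensorProduct.map σ LinearMap.id (AW (bd (e s))) =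
      AW (e s) - σ (e nil) ⊗ₜ[ℚ] e s - (e s - σ (bd (e s))) ⊗ₜ[ℚ] e (pt m)

/-- TO: additivity on cycles -/
def T_TO : Prop :=
  ∀ (P Q : Type) [PartialOrder P] [PartialOrder Q] (F : P × P →o Q) (μ : CC P →ₗ[ℚ] CG Q) (n : ℕ),
    2 ≤ n → Mu F μ → Van P n → ∀ z ∈ G P n, bd z = 0 → ∀ u v : P,
      ∃ y ∈ G Q (n + 1), bd y = μ (AW z) - μ (z ⊗ₜ[ℚ] e (pt v)) - μ (e (pt u) ⊗ₜ[ℚ] z)

/-- TOP: degree theories exist -/
def T_TOP : Prop :=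
  ∀ (P : Type) [PartialOrder P] [Finite P] [Nonempty P],
    (∀ x y : P, Relation.ReflTransGen (fun a b => a ≤ b ∨ b ≤ a) x y) →
    ∀ τ : P ≃o P, (∀ x, τ (τ x) = x) → (∀ x, τ x ≠ x) →
      ∃ (A : Type) (_ : Ring A) (_ : Algebra ℚ A) (_ : Nontrivial A), Nonempty (Deg P A)

end Pool.Agent.H58.HN
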