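import Pool.Agent.H58.HN.TargetsT

/-!
# Acyclic carriers
-/

set_option autoImplicit false

noncomputable section

namespace Pool.Agent.H58.HN

open Classical

variable {I X Y : Type} [AddCommGroup X] [Module ℚ X] [AddCommGroup Y] [Module ℚ Y]

/-- the successive approximations -/
def tcF (b : Module.Basis I ℚ X) (d : I → ℕ) (N : ℕ) (D : X →ₗ[ℚ] X) (δ : Y →ₗ[ℚ] Y)
    (φ : X →ₗ[ℚ] Y) (ε : ℚ) (f₀ : X →ₗ[ℚ] Y) (K : I → Submodule ℚ Y) : ℕ → (X →ₗ[ℚ] Y)
  | 0 => b.constr ℚ fun i => if d i ≤ N then f₀ (b i) else 0
  | k + 1 => b.constr ℚ fun i =>
      if d i = N + k + 1 then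
        (if h : ∃ y ∈ K i, δ y = φ (b i) + ε • tcF b d N D δ φ ε f₀ K k (D (b i)) then h.choose
          else 0)
      else tcF b d N D δ φ ε f₀ K k (b i)

theorem pf_TC : T_TC := by
  intro I X Y _ _ _ _ b d N D δ φ ε f₀ K L ha hb hc hc0 hd he
  set F := tcF b d N D δ φ ε f₀ K with hF
  have F0 : ∀ i, F 0 (b i) = if d i ≤ N then f₀ (b i) else 0 := by
    intro i
    rw [hF, tcF, Module.Basis.constr_basis]
  have FS : ∀ k i, F (k + 1) (b i) = if d i = N + k + 1 then
        (if h : ∃ y ∈ K i, δ y = φ (b i) + ε • F k (D (b i)) then h.choose else 0)
      else F k (b i) := by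
    intro k i
    rw [hF, tcF, Module.Basis.constr_basis]
  have key : ∀ k : ℕ, (∀ i, d i ≤ N → F k (b i) = f₀ (b i)) ∧
      (∀ i, d i ≤ N + k → F k (b i) ∈ K i) ∧
      (∀ i, N < d i → d i ≤ N + k → δ (F k (b i)) = φ (b i) + ε • F k (D (b i))) := by
    intro k
    induction k with
    | zero =>
      refine ⟨fun i hi => ?_, fun i hi => ?_, fun i h1 h2 => ?_⟩
      · rw [F0, if_pos hi]
      · rw [F0, if_pos (by omega)]
        exact he i (by omega)
      · omega
    | succ k ih =>
      obtain ⟨ih1, ih2, ih3⟩ := ih
      -- the values of the new map on lower generators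
      have hlow : ∀ i, d i ≤ N + k → F (k + 1) (b i) = F k (b i) := by
        intro i hi
        rw [FS, if_neg (by omega)]
      have hspan : ∀ i, N < d i → d i ≤ N + k + 1 → F (k + 1) (D (b i)) = F k (D (b i)) := by
        intro i h1 h2
        have h3 := ha i h1
        generalize D (b i) = z at h3 ⊢
        induction h3 using Submodule.span_induction with
        | mem x hx =>
          obtain ⟨j, rfl, hj, _⟩ := hx
          exact hlow j (by omega)
        | zero => rw [map_zero, map_zero]
        | add x y _ _ hx hy => rw [map_add, map_add, hx, hy]
        | smul a x _ hx => rw [map_smul, map_smul, hx]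
      have hex : ∀ i, d i = N + k + 1 → ∃ y ∈ K i, δ y = φ (b i) + ε • F k (D (b i)) := by
        intro i hi
        have h1 := ha i (by omega)
        refine hd i (by omega) _ ?_ ?_
        · refine (L i).add_mem (hb i (by omega)) ((L i).smul_mem _ ?_)
          generalize D (b i) = z at h1 ⊢
          induction h1 using Submodule.span_induction with
          | mem x hx =>
            obtain ⟨j, rfl, hj, hjK⟩ := hx
            exact hjK (ih2 j (by omega))
          | zero => rw [map_zero]; exact (L i).zero_mem
          | add x y _ _ hx hy => rw [map_add]; exact (L i).add_mem hx hy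
          | smul a x _ hx => rw [map_smul]; exact (L i).smul_mem _ hx
        · rcases Nat.eq_zero_or_pos k with rfl | hk
          · have h2 : F 0 (D (b i)) = f₀ (D (b i)) := by
              generalize D (b i) = z at h1 ⊢
              induction h1 using Submodule.span_induction with
              | mem x hx =>
                obtain ⟨j, rfl, hj, hjK⟩ := hx
                exact ih1 j (by omega)
              | zero => rw [map_zero, map_zero]
              | add x y _ _ hx hy => rw [map_add, map_add, hx, hy]
              | smul a x _ hx => rw [map_smul, map_smul, hx]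
            rw [h2]
            exact hc0 i (by omega)
          · have h2 : δ (F k (D (b i))) = φ (D (b i)) + ε • F k (D (D (b i))) := by
              generalize D (b i) = z at h1 ⊢
              induction h1 using Submodule.span_induction with
              | mem x hx =>
                obtain ⟨j, rfl, hj, hjK⟩ := hx
                exact ih3 j (by omega) (by omega)
              | zero => simp
              | add x y _ _ hx hy =>
                simp only [map_add, hx, hy, smul_add]
                abel
              | smul a x _ hx =>
                simp only [map_smul, hx, smul_add]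
                rw [smul_comm a ε]
            obtain ⟨h3, h4⟩ := hc i (by omega)
            rw [map_add, map_smul, h2, h3, map_zero, smul_zero, add_zero]
            exact h4
      refine ⟨fun i hi => ?_, fun i hi => ?_, fun i h1 h2 => ?_⟩
      · rw [hlow i (by omega)]
        exact ih1 i hi
      · rcases Nat.lt_or_ge (N + k) (d i) with h | h
        · have h3 : d i = N + k + 1 := by omega
          rw [FS, if_pos h3, dif_pos (hex i h3)]
          exact (hex i h3).choose_spec.1
        · rw [hlow i h]
          exact ih2 i h
      · rw [hspan i h1 (by omega)]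
        rcases Nat.lt_or_ge (N + k) (d i) with h | h
        · have h3 : d i = N + k + 1 := by omega
          rw [FS, if_pos h3, dif_pos (hex i h3)]
          exact (hex i h3).choose_spec.2
        · rw [hlow i h]
          exact ih3 i h1 h
  have stab : ∀ i k, d i ≤ N + k → ∀ m, k ≤ m → F m (b i) = F k (b i) := by
    intro i k hk m hm
    induction m, hm using Nat.le_induction with
    | base => rfl
    | succ m hm ih => rw [FS, if_neg (by omega), ih]
  let f : X →ₗ[ℚ] Y := b.constr ℚ fun i => F (d i) (b i)
  have hf : ∀ i, f (b i) = F (d i) (b i) := fun i => Module.Basis.constr_basis ..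
  refine ⟨f, fun i hi => ?_, fun i => ?_, fun i hi => ?_⟩
  · rw [hf]
    exact (key (d i)).1 i hi
  · rw [hf]
    exact (key (d i)).2.1 i (by omega)
  · have h1 : f (D (b i)) = F (d i) (D (b i)) := by
      have h2 := ha i hi
      generalize D (b i) = z at h2 ⊢
      induction h2 using Submodule.span_induction with
      | mem x hx =>
        obtain ⟨j, rfl, hj, _⟩ := hx
        rw [hf]
        exact (stab j (d j) (by omega) (d i) (by omega)).symm
      | zero => rw [map_zero, map_zero]
      | add x y _ _ hx hy => rw [map_add, map_add, hx, hy]
      | smul a x _ hx => rw [map_smul, map_smul, hx]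
    rw [hf, h1]
    exact (key (d i)).2.2 i hi (by omega)

end Pool.Agent.H58.HN
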