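import Pool.Agent.H58.HN.DefsA

/-!
# Statements of the modules: algebra
-/

set_option autoImplicit false

namespace Pool.Agent.H58.HN

/-- AA: the entries form a finite multiplicative set, minimal idempotents exist, powers -/
def T_AA : Prop :=
  ∀ (A : Type) [Ring A] [Algebra ℚ A] [Nontrivial A] (V : Set (Multiset A)) (Φ : Set A),
    Sys A V Φ → {a : A | ∃ s ∈ V, a ∈ s}.Finite ∧
      (∀ a b, (∃ s ∈ V, a ∈ s) → (∃ s ∈ V, b ∈ s) → ∃ s ∈ V, a * b ∈ s) ∧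
      (∃ e, MinIdem V e) ∧
      ∀ e, MinIdem V e → ∀ x, (∃ s ∈ V, x ∈ s) → e * x = x → x * e = x →
        ∃ n, 1 ≤ n ∧ (x ^ n = 0 ∨ x ^ n = e)

/-- AB: an entry which is a unit -/
def T_AB : Prop :=
  ∀ (A : Type) [Ring A] [Algebra ℚ A] [Nontrivial A] (V : Set (Multiset A)) (Φ : Set A),
    Sys A V Φ → ∀ e, MinIdem V e → ∀ s ∈ V, s.sum = 1 →
      ∃ u ∈ s, ∃ n, 1 ≤ n ∧ (e * u * e) ^ n = e

/-- AC: the number of nonzero entries is bounded -/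
def T_AC : Prop :=
  ∀ (A : Type) [Ring A] [Algebra ℚ A] [Nontrivial A] (V : Set (Multiset A)) (Φ : Set A),
    Sys A V Φ → ∃ B : ℕ, ∀ s ∈ V, ∀ t, t ≤ s → (∀ a ∈ t, a ≠ 0) → Multiset.card t ≤ B

/-- AD: the other entries vanish -/
def T_AD : Prop :=
  ∀ (A : Type) [Ring A] [Algebra ℚ A] [Nontrivial A] (V : Set (Multiset A)) (Φ : Set A),
    Sys A V Φ → ∀ e, MinIdem V e → ∀ (u : A) (s : Multiset A), u ::ₘ s ∈ V →
      ∀ n, 1 ≤ n → (e * u * e) ^ n = e → ∀ v ∈ s, e * v = 0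

/-- AE: growth of the sums -/
def T_AE : Prop :=
  ∀ (A : Type) [Ring A] [Algebra ℚ A] [Nontrivial A] (V : Set (Multiset A)) (Φ : Set A),
    Sys A V Φ → ∀ (e u : A) (t : Multiset A), t ∈ V → u ∈ t → e * u = e → e * t.sum = e

/-- AF: the choice of one entry -/
def T_AF : Prop :=
  ∀ (A : Type) [Ring A] [Algebra ℚ A] [Nontrivial A] (V : Set (Multiset A)) (Φ : Set A),
    Sys A V Φ → ∃ sel : A → A → Prop,
      (∀ s ∈ V, ∃ (a : A) (t : Multiset A), s = a ::ₘ t ∧ sel s.sum a ∧ ∀ b ∈ t, ¬ sel s.sum b) ∧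
      ∀ s ∈ V, ∀ t ∈ V, ∀ a, a ∈ s → a ∈ t → sel s.sum a → sel t.sum a

end Pool.Agent.H58.HN
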