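import Pool.Agent.H1.HN.TA
import Pool.Agent.H1.HN.TB
import Pool.Agent.H58.HN.TC
import Pool.Agent.H34.HN.TD
import Pool.Agent.H34.HN.TE
import Pool.Agent.H68.HN.TF
import Pool.Agent.H68.HN.TG
import Pool.Agent.H1.HN.TH
import Pool.Agent.H9.HN.TI
import Pool.Agent.H9.HN.TJ
import Pool.Agent.H20.HN.TK
import Pool.Agent.H22.HN.TL
import Pool.Agent.H22.HN.TM
import Pool.Agent.H13.HN.TN
import Pool.Agent.H35.HN.TO
import Pool.Agent.H68.HN.TOP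
import Pool.Agent.H52.HN.AA
import Pool.Agent.H20.HN.AB
import Pool.Agent.H52.HN.AC
import Pool.Agent.H52.HN.AD
import Pool.Agent.H52.HN.AE
import Pool.Agent.H20.HN.AF
import Pool.Agent.H70.HN.GA
import Pool.Agent.H54.HN.GB
import Pool.Agent.H52.HN.GC
import Pool.Agent.H97.HN.GD
import Pool.Agent.H40.HN.GE
import Pool.Agent.H40.HN.GF
import Pool.Agent.H68.HN.GG
import Pool.Agent.H89.HN.LA
import Pool.Agent.H22.HN.LB
import Pool.Agent.H68.HN.LC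
import Pool.Agent.H97.HN.LD
import Pool.Agent.H97.HN.LE
import Pool.Agent.H97.HN.LF
import Pool.Agent.H97.HN.FA
import Pool.Agent.H97.HN.RA
import Pool.Agent.H97.HN.RD

/-!
# Graphs with the finite images of a finite graph: assembly
-/

set_option autoImplicit false

namespace Pool.Agent.H58.HN

theorem all_TOP : T_TOP := by
  have hA := Pool.Agent.H1.HN.pf_TA
  have hB := Pool.Agent.H1.HN.pf_TB
  have hJ := Pool.Agent.H9.HN.pf_TJ
  have hI := Pool.Agent.H9.HN.pf_TI hA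
  exact Pool.Agent.H68.HN.pf_TOP hA (Pool.Agent.H34.HN.pf_TD hA hB pf_TC)
    (Pool.Agent.H34.HN.pf_TE hA hB pf_TC) Pool.Agent.H68.HN.pf_TF (Pool.Agent.H68.HN.pf_TG hA)
    Pool.Agent.H1.HN.pf_TH (Pool.Agent.H20.HN.TK.pf_TK hA hB pf_TC hI) (Pool.Agent.H22.HN.pf_TL hJ)
    (Pool.Agent.H35.HN.pf_TO hA hI hJ (Pool.Agent.H22.HN.pf_TM hA) (Pool.Agent.H13.HN.pf_TN hJ))

theorem all_AF : T_AF := by
  have hA := Pool.Agent.H52.HN.pf_AA
  have hC := Pool.Agent.H52.HN.pf_AC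
  exact Pool.Agent.H20.HN.AF.pf_AF hA (Pool.Agent.H20.HN.AB.pf_AB hA) (Pool.Agent.H52.HN.pf_AD hC)
    Pool.Agent.H52.HN.pf_AE

theorem all_FA : T_FA := by
  have hC := Pool.Agent.H52.HN.pf_GC
  have hLA := Pool.Agent.H89.HN.pf_LA
  exact Pool.Agent.H97.HN.pf_FA (Pool.Agent.H54.HN.pf_GB Pool.Agent.H70.HN.pf_GA all_TOP)
    (Pool.Agent.H68.HN.pf_GG Pool.Agent.H40.HN.pf_GE Pool.Agent.H40.HN.pf_GF) all_AF
    (Pool.Agent.H97.HN.pf_LE (Pool.Agent.H22.HN.pf_LB hLA hC)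
      (Pool.Agent.H97.HN.pf_LD Pool.Agent.H68.HN.pf_LC) (Pool.Agent.H97.HN.pf_GD hC))
    (Pool.Agent.H97.HN.pf_LF hLA)

end Pool.Agent.H58.HN
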