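import Pool.Agent.H53.FC.Class
import Pool.Agent.H1.SF.P2

/-!
# The class of graphs
-/

set_option autoImplicit false

namespace Pool.Agent.H58.HN

open Pool.Agent.H68.BP Pool.Agent.H58.SF

/-- There is a finite undirected graph `(T; R)` without loops which has the same finite undirected
homomorphic images as `(D; E)`: for each finite undirected graph `(H; Q)` there is a homomorphism
from `(D; E)` to `(H; Q)` if and only if there is one from `(T; R)` to `(H; Q)`. -/
def FiniteImages {D : Type} (E : D → D → Prop) : Prop :=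
  ∃ (T : Type) (R : T → T → Prop), Finite T ∧ (∀ s t, R s t → R t s) ∧ (∀ t, ¬ R t t) ∧
    ∀ (H : Type) [Finite H] (Q : H → H → Prop), (∀ a b, Q a b → Q b a) →
      ((∃ c : D → H, ∀ x y, E x y → Q (c x) (c y)) ↔ ∃ φ : T → H, ∀ s t, R s t → Q (φ s) (φ t))

/-- `(D; E)` has finite chromatic number, and there is a group `G` of automorphisms of `(D; E)` with
finitely many orbits on `D` such that for each colouring `χ` of `D` with finitely many colours and
each finite `F ⊆ D` there is `g ∈ G` such that `χ (g x) = χ (g y)` for all `x, y ∈ F` in the same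
orbit of `G`. -/
def RamseyOrbits {D : Type} (E : D → D → Prop) : Prop :=
  (∃ m, Colorable E m) ∧ ∃ G : Subgroup (Equiv.Perm D),
    (∀ g ∈ G, ∀ x y, E x y → E (g x) (g y)) ∧ (∃ P : Finset D, ∀ x, ∃ y ∈ P, ∃ g ∈ G, g y = x) ∧
    ∀ (k : ℕ) (F : Finset D) (χ : D → Fin k), ∃ g ∈ G, ∀ x ∈ F, ∀ y ∈ F,
      (∃ γ ∈ G, γ x = y) → χ (g x) = χ (g y)

end Pool.Agent.H58.HN
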