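import Mathlib

/-!
# Systems of vectors of classes: definitions

The entries of the vectors are elements of a ring `A`; the order of the entries of a vector does not
matter, the vectors are multisets.
-/

set_option autoImplicit false

namespace Pool.Agent.H58.HN

/-- A set `V` of finite vectors (multisets) with entries in the ring `A`: it contains the vector
`{1}`, it is closed under the substitution of a vector in an entry, all partial sums of the vectors
belong to the finite set `Φ`, and the sums of the vectors have inverses in `V`. -/
structure Sys (A : Type) [Ring A] (V : Set (Multiset A)) (Φ : Set A) : Prop where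
  one : {1} ∈ V
  sub : ∀ (a : A) (s t : Multiset A), a ::ₘ s ∈ V → t ∈ V → s + t.map (fun b => a * b) ∈ V
  fin : Φ.Finite
  mem : ∀ s ∈ V, ∀ t, t ≤ s → t.sum ∈ Φ
  inv : ∀ s ∈ V, ∃ c, c * s.sum = 1 ∧ s.sum * c = 1 ∧ {c} ∈ V

/-- A minimal idempotent among the entries. -/
structure MinIdem {A : Type} [Ring A] (V : Set (Multiset A)) (e : A) : Prop where
  mem : ∃ s ∈ V, e ∈ s
  ne : e ≠ 0
  idem : e * e = e
  min : ∀ f, (∃ s ∈ V, f ∈ s) → f * f = f → e * f = f → f * e = f → f = 0 ∨ f = e

end Pool.Agent.H58.HN
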