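import Pool.Agent.H58.HN.DefsT
import Pool.Agent.H58.HN.DefsA
import Pool.Agent.H53.FC.Main
import Pool.Agent.H53.FC.Class

/-!
# Graphs: definitions
-/

set_option autoImplicit false

namespace Pool.Agent.H58.HN

open Pool.Agent.H68.BP Pool.Agent.H58.SF Pool.Agent.H53.RG

/-- the maps `φ`, `φ'` are adjacent -/
def Arc {X Y : Type} (R : X → X → Prop) (Q : Y → Y → Prop) (φ φ' : X → Y) : Prop :=
  ∀ x y, R x y → Q (φ x) (φ' y)

/-- the power of a relation -/
def Pw {X : Type} (I : Type) (R : X → X → Prop) (x y : I → X) : Prop := ∀ i, R (x i) (y i)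

/-- the slice of `f` in the coordinate `i` -/
def sl {I X Y : Type} [DecidableEq I] (f : (I → X) → Y) (i : I) (u : I → X) (z : X) : Y :=
  f (Function.update u i z)

/-- The poset of the complete bipartite pairs. -/
def BP {T : Type} (R : T → T → Prop) : Type :=
  {p : Set T × Set T // p.1.Nonempty ∧ p.2.Nonempty ∧ ∀ a ∈ p.1, ∀ b ∈ p.2, R a b}

instance {T : Type} (R : T → T → Prop) : PartialOrder (BP R) := Subtype.partialOrder _

/-- A degree theory for the adjacent pairs of maps. -/
structure ArcDeg {T : Type} (R : T → T → Prop) (A : Type) [Ring A]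
    (act : (T → T) → (T → T) → A) : Prop where
  one : act id id = 1
  mul : ∀ φ φ' ψ ψ', Arc R R φ φ' → Arc R R ψ ψ' → act (φ ∘ ψ) (φ' ∘ ψ') = act φ φ' * act ψ ψ'
  left : ∀ φ ψ φ', Arc R R φ φ' → Arc R R ψ φ' → act φ φ' = act ψ φ'
  right : ∀ φ φ' ψ', Arc R R φ φ' → Arc R R φ ψ' → act φ φ' = act φ ψ'
  add : ∀ F F' : T → T → T, (∀ s t u v, R s t → R u v → R (F s u) (F' t v)) →
    ∀ a b c d, R a b → R c d → act (fun x => F x x) (fun x => F' x x) =
      act (fun x => F x a) (fun x => F' x b) + act (F c) (F' d)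

/-- `cl` is the vector of classes of the polymorphism `H` of `(T; R)` -/
def IsCl {T A I : Type} [DecidableEq I] (R : T → T → Prop) (act : (T → T) → (T → T) → A)
    (H : (I → T) → T) (cl : I → A) : Prop :=
  Arc (Pw I R) R H H ∧ ∀ i s s', Pw I R s s' → act (sl H i s) (sl H i s') = cl i

/-- the vectors of classes of the polymorphisms of `(T; R)` -/
def VV {T A : Type} (R : T → T → Prop) (act : (T → T) → (T → T) → A) : Set (Multiset A) :=
  {m | ∃ (I : Type) (_ : Fintype I) (_ : DecidableEq I) (H : (I → T) → T) (cl : I → A),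
    IsCl R act H cl ∧ m = Finset.univ.val.map cl}

/-- the classes of all adjacent pairs -/
def AA {T A : Type} (R : T → T → Prop) (act : (T → T) → (T → T) → A) : Set A :=
  {a | ∃ φ φ', Arc R R φ φ' ∧ act φ φ' = a}

/-- The finite graph `(T; R)`: undirected, without loops, with walks of one odd length between all
vertices, and with bijective endomorphisms only. -/
structure GoodT {T : Type} (R : T → T → Prop) : Prop where
  fin : Finite T
  symm : ∀ s t, R s t → R t s
  irr : ∀ t, ¬ R t t
  edge : ∃ s t, R s t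
  walk : ∃ L, Odd L ∧ ∀ s t, Walk R L s t
  endo : ∀ φ : T → T, Arc R R φ φ → Function.Bijective φ

/-! ### Limits -/

/-- `φ` is the limit of `Φ` -/
def IsLim {V T Y : Type} (p : T → Ultrafilter V) (Φ : V → Y) (φ : T → Y) : Prop :=
  ∀ t, ∀ᶠ x in ((p t : Ultrafilter V) : Filter V), Φ x = φ t

/-- adjacent vertices give adjacent ultrafilters -/
def UAdj {V T : Type} (E : V → V → Prop) (R : T → T → Prop) (p : T → Ultrafilter V) : Prop :=
  ∀ s t, R s t → ∀ A ∈ p s, ∀ B ∈ p t, ∃ a ∈ A, ∃ b ∈ B, E a b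

/-- `(Φ, Φ')` is a limit of pairs of slices of `f` in the coordinate `i` with adjacent parameters -/
def SlCl {V Y I : Type} [DecidableEq I] (E : V → V → Prop) (f : (I → V) → Y) (i : I)
    (Φ Φ' : V → Y) : Prop :=
  ∀ F : Finset V, ∃ u u', Pw I E u u' ∧ (∀ x ∈ F, sl f i u x = Φ x) ∧ ∀ x ∈ F, sl f i u' x = Φ' x

/-- `(V; E)` has the same finite undirected homomorphic images as the finite undirected graph
`(T; R)` without loops. -/
structure SameImages {V T : Type} (E : V → V → Prop) (R : T → T → Prop) : Prop where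
  fin : Finite T
  symm : ∀ s t, R s t → R t s
  irr : ∀ t, ¬ R t t
  img : ∀ (H : Type) [Finite H] (Q : H → H → Prop), (∀ a b, Q a b → Q b a) →
    ((∃ c : V → H, ∀ x y, E x y → Q (c x) (c y)) ↔ ∃ φ : T → H, ∀ s t, R s t → Q (φ s) (φ t))

end Pool.Agent.H58.HN
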