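import Mathlib

/-!
# Chains of a finite poset: definitions

The augmented rational chain complex of the order complex of a poset. The generators are the finite
chains, the empty chain included; a chain with `n` elements has degree `n`.
-/

set_option autoImplicit false

noncomputable section

namespace Pool.Agent.H58.HN

open Classical
open scoped TensorProduct

/-- finite chains of the poset `P` -/
def Ch (P : Type) [PartialOrder P] : Type := {s : Finset P // IsChain (· ≤ ·) (s : Set P)}

variable {P Q : Type} [PartialOrder P] [PartialOrder Q]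

/-- the empty chain -/
def nil : Ch P := ⟨∅, by simp⟩

/-- the chain with one element -/
def pt (x : P) : Ch P := ⟨{x}, by simp⟩

/-- remove the element `x` -/
def er (s : Ch P) (x : P) : Ch P :=
  ⟨s.1.erase x, s.2.mono fun _ h => Finset.mem_of_mem_erase (Finset.mem_coe.1 h)⟩

/-- the elements `≤ x` -/
def lo (s : Ch P) (x : P) : Ch P :=
  ⟨s.1.filter (fun y => y ≤ x), s.2.mono fun _ h => (Finset.mem_filter.1 (Finset.mem_coe.1 h)).1⟩

/-- the elements `≥ x` -/
def hi (s : Ch P) (x : P) : Ch P :=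
  ⟨s.1.filter (fun y => x ≤ y), s.2.mono fun _ h => (Finset.mem_filter.1 (Finset.mem_coe.1 h)).1⟩

/-- the chain group -/
abbrev CG (P : Type) [PartialOrder P] : Type := Ch P →₀ ℚ

/-- the generators -/
def e (s : Ch P) : CG P := Finsupp.single s 1

/-- the sign of the element `x` of `s` -/
def sg (s : Ch P) (x : P) : ℚ := (-1) ^ (s.1.filter (fun y => y < x)).card

/-- the boundary -/
def bd : CG P →ₗ[ℚ] CG P :=
  Finsupp.linearCombination ℚ fun s : Ch P => ∑ x ∈ s.1, sg s x • e (er s x)

/-- combinations of chains with the property `A` -/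
def Sp (A : Ch P → Prop) : Submodule ℚ (CG P) := Finsupp.supported ℚ ℚ {s | A s}

/-- combinations of chains with `n` elements -/
def G (P : Type) [PartialOrder P] (n : ℕ) : Submodule ℚ (CG P) := Sp fun s => s.1.card = n

/-- `Φ` is a chain map carried by the monotone map `f` (no condition on the empty chain) -/
structure Carries (f : P →o Q) (Φ : CG P →ₗ[ℚ] CG Q) : Prop where
  car : ∀ s : Ch P, s.1.Nonempty →
    Φ (e s) ∈ Sp fun t : Ch Q => t.1.card = s.1.card ∧ ∀ y ∈ t.1, ∃ x ∈ s.1, y ≤ f x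
  com : ∀ s : Ch P, 2 ≤ s.1.card → bd (Φ (e s)) = Φ (bd (e s))
  aug : ∀ x : P, bd (Φ (e (pt x))) = e nil

/-- the homology vanishes in the degrees `< n` -/
def Van (P : Type) [PartialOrder P] (n : ℕ) : Prop :=
  ∀ m, m < n → ∀ z ∈ G P m, bd z = 0 → ∃ y ∈ G P (m + 1), bd y = z

/-! ### Products -/

/-- the tensor product -/
abbrev CC (P : Type) [PartialOrder P] : Type := CG P ⊗[ℚ] CG P

/-- the boundary without augmentation -/
def bp : CG P →ₗ[ℚ] CG P :=
  Finsupp.linearCombination ℚ fun s : Ch P => if 2 ≤ s.1.card then bd (e s) else 0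

/-- signs -/
def om : CG P →ₗ[ℚ] CG P :=
  Finsupp.linearCombination ℚ fun s : Ch P => (-1 : ℚ) ^ (s.1.card + 1) • e s

/-- the boundary of the tensor product -/
def D2 : CC P →ₗ[ℚ] CC P := TensorProduct.map bp LinearMap.id + TensorProduct.map om bp

/-- the diagonal -/
def AW : CG P →ₗ[ℚ] CC P :=
  Finsupp.linearCombination ℚ fun s : Ch P => ∑ x ∈ s.1, e (lo s x) ⊗ₜ[ℚ] e (hi s x)

/-- `μ` is a chain map carried by the monotone map `F` of two variables -/
structure Mu (F : P × P →o Q) (μ : CC P →ₗ[ℚ] CG Q) : Prop where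
  pt : ∀ x y, μ (e (pt x) ⊗ₜ[ℚ] e (pt y)) = e (HN.pt (F (x, y)))
  car : ∀ s t : Ch P, s.1.Nonempty → t.1.Nonempty →
    μ (e s ⊗ₜ[ℚ] e t) ∈ Sp fun w : Ch Q => w.1.card + 1 = s.1.card + t.1.card ∧
      ∀ y ∈ w.1, ∃ a ∈ s.1, ∃ b ∈ t.1, y ≤ F (a, b)
  com : ∀ s t : Ch P, s.1.Nonempty → t.1.Nonempty → 3 ≤ s.1.card + t.1.card →
    bd (μ (e s ⊗ₜ[ℚ] e t)) = μ (D2 (e s ⊗ₜ[ℚ] e t))

/-- a contraction below degree `n` -/
structure Con (P : Type) [PartialOrder P] (n : ℕ) (σ : CG P →ₗ[ℚ] CG P) : Prop where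
  zero : ∀ s : Ch P, n ≤ s.1.card → σ (e s) = 0
  deg : ∀ s : Ch P, s.1.card < n → σ (e s) ∈ G P (s.1.card + 1)
  hom : ∀ s : Ch P, s.1.card < n → bd (σ (e s)) + σ (bd (e s)) = e s

/-! ### Degrees -/

/-- A degree theory on the poset `P` with values in the ring `A`. -/
structure Deg (P A : Type) [PartialOrder P] [Ring A] where
  act : (P →o P) → A
  one : act OrderHom.id = 1
  mul : ∀ f g : P →o P, act (f.comp g) = act f * act g
  le : ∀ f g : P →o P, f ≤ g → act f = act g
  add : ∀ (F : P × P →o P) (u v : P), act (F.comp OrderHom.diag) =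
    act (F.comp (OrderHom.id.prod (OrderHom.const P v))) +
      act (F.comp ((OrderHom.const P u).prod OrderHom.id))

end Pool.Agent.H58.HN
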