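import Pool.Agent.H58.HN.All
import Pool.Agent.H58.HN.Def
import Pool.Agent.H22.HN.RB
import Pool.Agent.H22.HN.RC

/-!
# The final form
-/

set_option autoImplicit false

namespace Pool.Agent.H58.HN

open Pool.Agent.H68.BP Pool.Agent.H58.SF

theorem all_RC : T_RC :=
  Pool.Agent.H22.HN.pf_RC all_FA Pool.Agent.H97.HN.pf_RA Pool.Agent.H22.HN.pf_RB

theorem finiteImages_iff {D : Type} {E : D → D → Prop} :
    FiniteImages E ↔ ∃ (T : Type) (R : T → T → Prop), SameImages E R :=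
  ⟨fun ⟨T, R, h1, h2, h3, h4⟩ => ⟨T, R, ⟨h1, h2, h3, h4⟩⟩, fun ⟨T, R, h⟩ =>
    ⟨T, R, h.fin, h.symm, h.irr, h.img⟩⟩

theorem finiteImages_of_ramseyOrbits {D : Type} {E : D → D → Prop} (hs : ∀ x y, E x y → E y x)
    (h : RamseyOrbits E) : FiniteImages E := by
  obtain ⟨⟨m, hm⟩, G, hG, hP, hR⟩ := h
  exact finiteImages_iff.2 (Pool.Agent.H97.HN.pf_RD D E m G hs hm hR hG hP)

theorem hn_K3 {D : Type} {E : D → D → Prop} (hD : Countable D) (hol : Oligo (graph E))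
    (hs : ∀ x y, E x y → E y x) (hE : FiniteImages E) (h2 : ¬ Colorable E 2) :
    PPConstructsK3 (graph E) := by
  obtain ⟨T, R, h⟩ := finiteImages_iff.1 hE
  exact all_RC D T E R hD hol hs h h2

end Pool.Agent.H58.HN
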