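import Pool.Agent.H58.HN.DefsG

/-!
# Statements of the modules: graphs
-/

set_option autoImplicit false

namespace Pool.Agent.H58.HN

open Pool.Agent.H68.BP Pool.Agent.H58.SF Pool.Agent.H53.RG

/-- GA: the poset of the complete bipartite pairs is connected -/
def T_GA : Prop :=
  ∀ (T : Type) (R : T → T → Prop), (∀ s t, R s t → R t s) → (∃ L, Odd L ∧ ∀ s t, Walk R L s t) →
    ∀ x y : BP R, Relation.ReflTransGen (fun a b => a ≤ b ∨ b ≤ a) x y

/-- GB: the degree theory of a finite graph -/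
def T_GB : Prop :=
  ∀ (T : Type) (R : T → T → Prop) [Finite T], (∀ s t, R s t → R t s) → (∀ t, ¬ R t t) →
    (∃ s t, R s t) → (∃ L, Odd L ∧ ∀ s t, Walk R L s t) →
    ∃ (A : Type) (_ : Ring A) (_ : Algebra ℚ A) (_ : Nontrivial A)
      (act : (T → T) → (T → T) → A), ArcDeg R A act

/-- GC: the degree is constant along odd walks -/
def T_GC : Prop :=
  ∀ (T A : Type) (R : T → T → Prop) [Ring A] (act : (T → T) → (T → T) → A),
    (∀ s t, R s t → R t s) → ArcDeg R A act → ∀ (n : ℕ) (w : ℕ → T → T),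
      (∀ k, k < 2 * n + 1 → Arc R R (w k) (w (k + 1))) →
      act (w 0) (w 1) = act (w (2 * n)) (w (2 * n + 1))

/-- GD: polymorphisms have vectors of classes -/
def T_GD : Prop :=
  ∀ (T A I : Type) [DecidableEq I] (R : T → T → Prop) [Ring A] (act : (T → T) → (T → T) → A),
    GoodT R → ArcDeg R A act → ∀ H : (I → T) → T, Arc (Pw I R) R H H → ∃ cl, IsCl R act H cl

/-- GE: substitution -/
def T_GE : Prop :=
  ∀ (T A I J : Type) [DecidableEq I] [DecidableEq J] (R : T → T → Prop) [Ring A]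
    (act : (T → T) → (T → T) → A), GoodT R → ArcDeg R A act →
    ∀ (H : (I → T) → T) (H' : (J → T) → T) (cl : I → A) (cl' : J → A) (i : I),
      IsCl R act H cl → IsCl R act H' cl' →
      IsCl R act (I := {i' : I // i' ≠ i} ⊕ J)
        (fun x => H fun i' => if h : i' = i then H' fun j => x (Sum.inr j)
          else x (Sum.inl ⟨i', h⟩))
        (Sum.elim (fun i' => cl i'.1) (fun j => cl i * cl' j))

/-- GF: partial sums -/
def T_GF : Prop :=
  ∀ (T A I : Type) [DecidableEq I] (R : T → T → Prop) [Ring A] (act : (T → T) → (T → T) → A),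
    GoodT R → ArcDeg R A act → ∀ (H : (I → T) → T) (cl : I → A), IsCl R act H cl →
      ∀ (S : Finset I) (s s' : I → T), Pw I R s s' → ∑ i ∈ S, cl i =
        act (fun x => H fun i => if i ∈ S then x else s i)
          (fun x => H fun i => if i ∈ S then x else s' i)

/-- GG: the system of the vectors of classes -/
def T_GG : Prop :=
  ∀ (T A : Type) (R : T → T → Prop) [Ring A] (act : (T → T) → (T → T) → A),
    GoodT R → ArcDeg R A act → Sys A (VV R act) (AA R act)

/-- LA: limits of adjacent maps -/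
def T_LA : Prop :=
  ∀ (V T Y : Type) (E : V → V → Prop) (R : T → T → Prop) (Q : Y → Y → Prop) (p : T → Ultrafilter V),
    UAdj E R p → (∀ (Φ : V → Y) [Finite Y], ∃ φ, IsLim p Φ φ) ∧
      ∀ (Φ Φ' : V → Y) (φ φ' : T → Y), IsLim p Φ φ → IsLim p Φ' φ' → Arc E Q Φ Φ' → Arc R Q φ φ'

/-- LB: independence of the pair of slices -/
def T_LB : Prop :=
  ∀ (V T A I : Type) [DecidableEq I] [Finite I] (E : V → V → Prop) (R : T → T → Prop) [Ring A]
    (act : (T → T) → (T → T) → A) (p : T → Ultrafilter V),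
    (∀ x y, E x y → E y x) → (∃ L, Odd L ∧ ∀ x y, Walk E L x y) → GoodT R → ArcDeg R A act →
    UAdj E R p → ∀ f : (I → V) → T, Arc (Pw I E) R f f → ∀ (i : I) (Φ Φ' Ψ Ψ' : V → T)
      (φ φ' ψ ψ' : T → T), SlCl E f i Φ Φ' → SlCl E f i Ψ Ψ' → IsLim p Φ φ → IsLim p Φ' φ' →
      IsLim p Ψ ψ → IsLim p Ψ' ψ' → act φ φ' = act ψ ψ'

/-- LC: the iterated limit, `n` coordinates -/
def T_LC : Prop :=
  ∀ (V T : Type) (n : ℕ) (E : V → V → Prop) (R : T → T → Prop) (p : T → Ultrafilter V),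
    Finite T → (∃ x y, E x y) → UAdj E R p → ∀ f : (Fin n → V) → T, Arc (Pw (Fin n) E) R f f →
      ∃ H : (Fin n → T) → T, Arc (Pw (Fin n) R) R H H ∧ ∀ i s s', Pw (Fin n) R s s' →
        ∃ Φ Φ' : V → T, SlCl E f i Φ Φ' ∧ IsLim p Φ (sl H i s) ∧ IsLim p Φ' (sl H i s')

/-- LD: the iterated limit -/
def T_LD : Prop :=
  ∀ (V T I : Type) [DecidableEq I] [Finite I] (E : V → V → Prop) (R : T → T → Prop)
    (p : T → Ultrafilter V),
    Finite T → (∃ x y, E x y) → UAdj E R p → ∀ f : (I → V) → T, Arc (Pw I E) R f f →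
      ∃ H : (I → T) → T, Arc (Pw I R) R H H ∧ ∀ i s s', Pw I R s s' →
        ∃ Φ Φ' : V → T, SlCl E f i Φ Φ' ∧ IsLim p Φ (sl H i s) ∧ IsLim p Φ' (sl H i s')

/-- LE: the vector of classes of a homomorphism from a power of `(V; E)` -/
def T_LE : Prop :=
  ∀ (V T A I : Type) [DecidableEq I] [Fintype I] (E : V → V → Prop) (R : T → T → Prop) [Ring A]
    (act : (T → T) → (T → T) → A) (p : T → Ultrafilter V),
    (∀ x y, E x y → E y x) → (∃ L, Odd L ∧ ∀ x y, Walk E L x y) → GoodT R → ArcDeg R A act →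
    UAdj E R p → ∀ f : (I → V) → T, Arc (Pw I E) R f f → ∃ cl : I → A,
      Finset.univ.val.map cl ∈ VV R act ∧ ∀ i u u', Pw I E u u' → ∀ φ φ' : T → T,
        IsLim p (sl f i u) φ → IsLim p (sl f i u') φ' → act φ φ' = cl i

/-- LF: minors -/
def T_LF : Prop :=
  ∀ (V T A I J : Type) [DecidableEq I] [DecidableEq J] (E : V → V → Prop) (R : T → T → Prop)
    [Ring A] (act : (T → T) → (T → T) → A) (p : T → Ultrafilter V), Finite T →
    (∃ x y, E x y) → UAdj E R p → ∀ (f : (I → V) → T) (π : I → J) (cl : I → A) (cl' : J → A),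
      (∀ i u u', Pw I E u u' → ∀ φ φ' : T → T,
        IsLim p (sl f i u) φ → IsLim p (sl f i u') φ' → act φ φ' = cl i) →
      (∀ j u u', Pw J E u u' → ∀ φ φ' : T → T,
        IsLim p (sl (fun y => f (y ∘ π)) j u) φ → IsLim p (sl (fun y => f (y ∘ π)) j u') φ' →
          act φ φ' = cl' j) →
      ∀ i, (∀ i', π i' = π i → i' = i) → cl' (π i) = cl i

/-- FA: no Olšák function -/
def T_FA : Prop :=
  ∀ (V T : Type) (E : V → V → Prop) (R : T → T → Prop) (p : T → Ultrafilter V),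
    (∀ x y, E x y → E y x) → (∃ L, Odd L ∧ ∀ x y, Walk E L x y) → GoodT R → UAdj E R p →
      ∀ h : (Fin 6 → V) → T, Arc (Pw (Fin 6) E) R h h → Ols h → False

/-- RA: minimal graphs with the same images -/
def T_RA : Prop :=
  ∀ (V T : Type) (E : V → V → Prop) (R : T → T → Prop), SameImages E R →
    ∃ (T' : Type) (R' : T' → T' → Prop), SameImages E R' ∧
      ∀ φ : T' → T', Arc R' R' φ φ → Function.Bijective φ

/-- RB: the component -/
def T_RB : Prop :=
  ∀ (V T : Type) (E : V → V → Prop) (R : T → T → Prop), Countable V → Oligo (graph E) →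
    (∀ x y, E x y → E y x) → SameImages E R → (∀ φ : T → T, Arc R R φ φ → Function.Bijective φ) →
    ¬ Colorable E 2 → ∃ (x₀ : V) (t₀ : T) (p : Cmp R t₀ → Ultrafilter (Cmp E x₀)),
      UAdj (CE E x₀) (CE R t₀) p ∧ (∃ L, Odd L ∧ ∀ x y, Walk (CE E x₀) L x y) ∧
      (∃ L, Odd L ∧ ∀ s t, Walk (CE R t₀) L s t) ∧
      (∀ φ : Cmp R t₀ → T, Arc (CE R t₀) R φ φ → ∃ ψ : Cmp R t₀ → Cmp R t₀,
        Function.Bijective ψ ∧ ∀ s, φ s = (ψ s).1)

/-- RC: Hell–Nešetřil for graphs with the finite images of a finite graph -/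
def T_RC : Prop :=
  ∀ (V T : Type) (E : V → V → Prop) (R : T → T → Prop), Countable V → Oligo (graph E) →
    (∀ x y, E x y → E y x) → SameImages E R → ¬ Colorable E 2 → PPConstructsK3 (graph E)

/-- RD: groups of automorphisms -/
def T_RD : Prop :=
  ∀ (V : Type) (E : V → V → Prop) (m : ℕ) (Γ : Subgroup (Equiv.Perm V)),
    (∀ x y, E x y → E y x) → Colorable E m → Pool.Agent.H53.FC.AgeIndivisible Γ →
    (∀ g ∈ Γ, ∀ x y, E x y → E (g x) (g y)) →
    (∃ P : Finset V, ∀ x, ∃ y ∈ P, ∃ g ∈ Γ, g y = x) →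
      ∃ (T : Type) (R : T → T → Prop), SameImages E R

end Pool.Agent.H58.HN
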